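import Mathlib

/-!
Counting positive integer points of the `ℓ^k` ball in dimension `k` by disjoint unit cubes.
-/

open MeasureTheory Finset

namespace Pool.Agent.H59.SP

/-- The half open unit interval `(b-1, b]` or its mirror image `[-b, -(b-1))`. -/
def side (b : ℕ) (s : Bool) : Set ℝ :=
  if s then Set.Ioc ((b : ℝ) - 1) b else Set.Ico (-(b : ℝ)) (-((b : ℝ) - 1))

lemma measurableSet_side (b : ℕ) (s : Bool) : MeasurableSet (side b s) := by
  unfold side
  split
  · exact measurableSet_Ioc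
  · exact measurableSet_Ico

lemma volume_side (b : ℕ) (s : Bool) : volume (side b s) = 1 := by
  unfold side
  split
  · rw [Real.volume_Ioc]; simp
  · rw [Real.volume_Ico]; simp

lemma side_abs {b : ℕ} {s : Bool} {v : ℝ} (hb : 1 ≤ b) (hv : v ∈ side b s) :
    |v| ≤ b ∧ (b : ℝ) - 1 < |v| := by
  have hb' : (1 : ℝ) ≤ b := by exact_mod_cast hb
  unfold side at hv
  split at hv
  · obtain ⟨h1, h2⟩ := hv
    have : 0 ≤ v := by linarith
    rw [abs_of_nonneg this]
    exact ⟨h2, h1⟩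
  · obtain ⟨h1, h2⟩ := hv
    have : v ≤ 0 := by linarith
    rw [abs_of_nonpos this]
    exact ⟨by linarith, by linarith⟩

lemma side_abs_le {b : ℕ} {s : Bool} {v : ℝ} (hb : 1 ≤ b) (hv : v ∈ side b s) : |v| ≤ b :=
  (side_abs hb hv).1

lemma lt_side_abs {b : ℕ} {s : Bool} {v : ℝ} (hb : 1 ≤ b) (hv : v ∈ side b s) :
    (b : ℝ) - 1 < |v| :=
  (side_abs hb hv).2

lemma side_disj {b b' : ℕ} {s s' : Bool} {v : ℝ} (hb : 1 ≤ b) (hb' : 1 ≤ b')
    (h : v ∈ side b s) (h' : v ∈ side b' s') : b = b' ∧ s = s' := by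
  have hb1 : (1 : ℝ) ≤ b := by exact_mod_cast hb
  have hb2 : (1 : ℝ) ≤ b' := by exact_mod_cast hb'
  constructor
  · have h1 := side_abs_le hb h
    have h2 := lt_side_abs hb h
    have h3 := side_abs_le hb' h'
    have h4 := lt_side_abs hb' h'
    have h5 : (b : ℝ) < b' + 1 := by linarith
    have h6 : (b' : ℝ) < b + 1 := by linarith
    have h5' : b < b' + 1 := by exact_mod_cast h5
    have h6' : b' < b + 1 := by exact_mod_cast h6
    omega
  · unfold side at h h'
    cases s <;> cases s'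
    · rfl
    · simp only [Bool.false_eq_true, if_false, if_true] at h h'
      obtain ⟨h1, h2⟩ := h
      obtain ⟨h3, h4⟩ := h'
      linarith
    · simp only [Bool.false_eq_true, if_false, if_true] at h h'
      obtain ⟨h1, h2⟩ := h
      obtain ⟨h3, h4⟩ := h'
      linarith
    · rfl

/-- Number of positive integer points of the ball. -/
theorem ball_count (k : ℕ) (hk : 1 ≤ k) (Y : ℕ) (T : Finset (Fin k → ℕ))
    (hT : ∀ b ∈ T, (∀ i, 1 ≤ b i) ∧ ∑ i, b i ^ k ≤ Y) :
    (T.card : ℝ) ≤ Real.Gamma (1 / (k : ℝ) + 1) ^ k * Y := by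
  classical
  have hk0 : (0 : ℝ) < k := by exact_mod_cast hk
  have hk1 : (1 : ℝ) ≤ k := by exact_mod_cast hk
  have hne : Nonempty (Fin k) := ⟨⟨0, hk⟩⟩
  set U : Finset ((Fin k → ℕ) × (Fin k → Bool)) := T ×ˢ (Finset.univ) with hU
  set C : (Fin k → ℕ) × (Fin k → Bool) → Set (Fin k → ℝ) :=
    fun z => Set.pi Set.univ (fun i => side (z.1 i) (z.2 i)) with hC
  set r : ℝ := (Y : ℝ) ^ (1 / (k : ℝ)) with hr
  set B : Set (Fin k → ℝ) := {x | (∑ i, |x i| ^ (k : ℝ)) ^ (1 / (k : ℝ)) ≤ r} with hB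
  have hvol : ∀ z, volume (C z) = 1 := by
    intro z
    rw [hC, volume_pi_pi]
    simp [volume_side]
  have hmeas : ∀ z ∈ U, MeasurableSet (C z) := by
    intro z _
    exact MeasurableSet.univ_pi (fun i => measurableSet_side _ _)
  have hdisj : Set.PairwiseDisjoint (U : Set ((Fin k → ℕ) × (Fin k → Bool))) C := by
    intro z hz z' hz' hne'
    rw [Function.onFun, Set.disjoint_left]
    intro v hv hv'
    apply hne'
    have hz1 := (hT z.1 (Finset.mem_product.mp hz).1).1
    have hz2 := (hT z'.1 (Finset.mem_product.mp hz').1).1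
    have key : ∀ i, z.1 i = z'.1 i ∧ z.2 i = z'.2 i := by
      intro i
      exact side_disj (hz1 i) (hz2 i) (hv i (Set.mem_univ i)) (hv' i (Set.mem_univ i))
    exact Prod.ext (funext fun i => (key i).1) (funext fun i => (key i).2)
  have hsub : (⋃ z ∈ U, C z) ⊆ B := by
    intro v hv
    simp only [Set.mem_iUnion] at hv
    obtain ⟨z, hz, hv⟩ := hv
    have hz1 := hT z.1 (Finset.mem_product.mp hz).1
    have h1 : ∑ i, |v i| ^ (k : ℝ) ≤ Y := by
      calc ∑ i, |v i| ^ (k : ℝ) ≤ ∑ i, ((z.1 i : ℕ) : ℝ) ^ (k : ℝ) := by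
            apply Finset.sum_le_sum
            intro i _
            apply Real.rpow_le_rpow (abs_nonneg _) _ hk0.le
            exact side_abs_le (hz1.1 i) (hv i (Set.mem_univ i))
        _ = ((∑ i, z.1 i ^ k : ℕ) : ℝ) := by
            push_cast
            apply Finset.sum_congr rfl
            intro i _
            exact Real.rpow_natCast _ _
        _ ≤ Y := by exact_mod_cast hz1.2
    have h0 : 0 ≤ ∑ i, |v i| ^ (k : ℝ) :=
      Finset.sum_nonneg (fun i _ => Real.rpow_nonneg (abs_nonneg _) _)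
    exact Real.rpow_le_rpow h0 h1 (by positivity)
  have hcard : (U.card : ENNReal) ≤ volume B := by
    calc (U.card : ENNReal) = ∑ z ∈ U, volume (C z) := by
          simp [hvol]
      _ = volume (⋃ z ∈ U, C z) := (measure_biUnion_finset hdisj hmeas).symm
      _ ≤ volume B := measure_mono hsub
  have hBvol : volume B = ENNReal.ofReal r ^ k *
      ENNReal.ofReal ((2 * Real.Gamma (1 / (k : ℝ) + 1)) ^ k / Real.Gamma ((k : ℝ) / k + 1)) := by
    have := MeasureTheory.volume_sum_rpow_le (ι := Fin k) hk1 r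
    rw [Fintype.card_fin] at this
    exact this
  have hr0 : 0 ≤ r := Real.rpow_nonneg (Nat.cast_nonneg _) _
  have hrk : r ^ k = Y := by
    rw [hr, ← Real.rpow_natCast, ← Real.rpow_mul (Nat.cast_nonneg _)]
    rw [one_div, inv_mul_cancel₀ hk0.ne', Real.rpow_one]
  have hG : Real.Gamma ((k : ℝ) / k + 1) = 1 := by
    rw [div_self hk0.ne']
    norm_num
  rw [hBvol, ← ENNReal.ofReal_pow hr0, hrk, hG, div_one,
    ← ENNReal.ofReal_mul (Nat.cast_nonneg _)] at hcard
  have hUcard : U.card = T.card * 2 ^ k := by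
    rw [hU, Finset.card_product, Finset.card_univ]
    simp
  have hgpos : 0 < Real.Gamma (1 / (k : ℝ) + 1) := Real.Gamma_pos_of_pos (by positivity)
  have h2 : ((U.card : ℕ) : ℝ) ≤ (Y : ℝ) * (2 * Real.Gamma (1 / (k : ℝ) + 1)) ^ k := by
    have h3 : ENNReal.ofReal ((U.card : ℕ) : ℝ) ≤
        ENNReal.ofReal ((Y : ℝ) * (2 * Real.Gamma (1 / (k : ℝ) + 1)) ^ k) := by
      rw [ENNReal.ofReal_natCast]
      exact hcard
    exact (ENNReal.ofReal_le_ofReal_iff (by positivity)).mp h3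
  rw [hUcard] at h2
  push_cast at h2
  rw [mul_pow] at h2
  have h2k : (0 : ℝ) < 2 ^ k := by positivity
  have h4 : (T.card : ℝ) * 2 ^ k ≤ (Real.Gamma (1 / (k : ℝ) + 1) ^ k * Y) * 2 ^ k := by
    calc (T.card : ℝ) * 2 ^ k ≤ Y * (2 ^ k * Real.Gamma (1 / (k : ℝ) + 1) ^ k) := h2
      _ = _ := by ring
  exact le_of_mul_le_mul_right h4 h2k

end Pool.Agent.H59.SP
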