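import Pool.Agent.H59.SPBall

/-!
Upper bound for the number of sums of `k` `k`-th powers up to `X`, taking the
residue classes modulo `M` into account.
-/

open Finset

namespace Pool.Agent.H59.SP

/-- The integers `1 ≤ n ≤ X` which are sums of `k` `k`-th powers of natural numbers. -/
noncomputable def S (k X : ℕ) : Finset ℕ := by
  classical exact (Icc 1 X).filter (fun n => ∃ a : Fin k → ℕ, ∑ i, a i ^ k = n)

lemma mem_S {k X n : ℕ} :
    n ∈ S k X ↔ (1 ≤ n ∧ n ≤ X) ∧ ∃ a : Fin k → ℕ, ∑ i, a i ^ k = n := by
  classical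
  simp [S]

/-- The integer part of the `k`-th root of `X`. -/
def rt (k X : ℕ) : ℕ := Nat.findGreatest (fun r => r ^ k ≤ X) X

lemma le_rt {k X a : ℕ} (hk : 1 ≤ k) (h : a ^ k ≤ X) : a ≤ rt k X := by
  exact Nat.le_findGreatest (P := fun r => r ^ k ≤ X) ((Nat.le_self_pow (by omega) a).trans h) h

lemma rt_pow {k : ℕ} (X : ℕ) (hk : 1 ≤ k) : (rt k X) ^ k ≤ X := by
  have := Nat.findGreatest_spec (P := fun r => r ^ k ≤ X) (m := 0) (n := X) (Nat.zero_le _)
    (by simp [Nat.pos_iff_ne_zero.mp hk])
  exact this

lemma rt_mono {k X Y : ℕ} (hk : 1 ≤ k) (h : X ≤ Y) : rt k X ≤ rt k Y :=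
  le_rt hk ((rt_pow X hk).trans h)

/-- The vectors of naturals with sum of `k`-th powers at most `X`. -/
def W (k X : ℕ) : Finset (Fin k → ℕ) :=
  (Fintype.piFinset (fun _ => range (rt k X + 1))).filter (fun a => ∑ i, a i ^ k ≤ X)

lemma entry_le {k X : ℕ} (hk : 1 ≤ k) {a : Fin k → ℕ} (h : ∑ i, a i ^ k ≤ X) (i : Fin k) :
    a i ≤ rt k X := by
  apply le_rt hk
  refine le_trans ?_ h
  exact Finset.single_le_sum (f := fun i => a i ^ k) (fun _ _ => Nat.zero_le _) (mem_univ i)

lemma mem_W {k X : ℕ} (hk : 1 ≤ k) {a : Fin k → ℕ} : a ∈ W k X ↔ ∑ i, a i ^ k ≤ X := by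
  unfold W
  rw [mem_filter, Fintype.mem_piFinset]
  constructor
  · exact fun h => h.2
  · intro h
    refine ⟨fun i => ?_, h⟩
    rw [mem_range]
    have := entry_le hk h i
    omega

/-- The box with one coordinate equal to zero. -/
def zbox (k R : ℕ) (i : Fin k) : Finset (Fin k → ℕ) :=
  Fintype.piFinset (Function.update (fun _ => range (R + 1)) i {0})

lemma card_zbox (k R : ℕ) (i : Fin k) : (zbox k R i).card = (R + 1) ^ (k - 1) := by
  unfold zbox
  rw [Fintype.card_piFinset]
  have h1 : ∀ j, (Function.update (fun _ : Fin k => range (R + 1)) i {0} j).card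
      = Function.update (fun _ : Fin k => R + 1) i 1 j := by
    intro j
    by_cases hj : j = i
    · subst hj; simp
    · simp [Function.update_of_ne hj]
  rw [Finset.prod_congr rfl (fun j _ => h1 j), Finset.prod_update_of_mem (mem_univ i)]
  rw [Finset.prod_const, one_mul, ← Finset.erase_eq, Finset.card_erase_of_mem (mem_univ i)]
  simp

lemma mem_zbox {k R : ℕ} {i : Fin k} {a : Fin k → ℕ} :
    a ∈ zbox k R i ↔ (∀ j, a j ≤ R) ∧ a i = 0 := by
  unfold zbox
  rw [Fintype.mem_piFinset]
  constructor
  · intro h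
    have hi : a i = 0 := by
      have := h i
      simpa using this
    refine ⟨fun j => ?_, hi⟩
    by_cases hj : j = i
    · rw [hj, hi]; omega
    · have := h j
      rw [Function.update_of_ne hj, mem_range] at this
      omega
  · rintro ⟨h1, h2⟩ j
    by_cases hj : j = i
    · subst hj; simp [h2]
    · rw [Function.update_of_ne hj, mem_range]
      have := h1 j
      omega

/-- Number of lattice points of the nonnegative part of the ball. -/
theorem card_W_le (k : ℕ) (hk : 1 ≤ k) (Y : ℕ) :
    ((W k Y).card : ℝ) ≤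
      Real.Gamma (1 / (k : ℝ) + 1) ^ k * Y + k * ((rt k Y : ℝ) + 1) ^ (k - 1) := by
  classical
  have hsplit : (W k Y).card = ((W k Y).filter (fun a => ∀ i, 1 ≤ a i)).card
      + ((W k Y).filter (fun a => ¬ ∀ i, 1 ≤ a i)).card :=
    (Finset.card_filter_add_card_filter_not (s := W k Y) (fun a => ∀ i, 1 ≤ a i)).symm
  have h1 : (((W k Y).filter (fun a => ∀ i, 1 ≤ a i)).card : ℝ) ≤
      Real.Gamma (1 / (k : ℝ) + 1) ^ k * Y := by
    apply ball_count k hk Y
    intro b hb
    rw [mem_filter, mem_W hk] at hb
    exact ⟨hb.2, hb.1⟩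
  have h2 : ((W k Y).filter (fun a => ¬ ∀ i, 1 ≤ a i)).card ≤ k * (rt k Y + 1) ^ (k - 1) := by
    calc ((W k Y).filter (fun a => ¬ ∀ i, 1 ≤ a i)).card
        ≤ ((Finset.univ : Finset (Fin k)).biUnion (fun i => zbox k (rt k Y) i)).card := by
          apply Finset.card_le_card
          intro a ha
          rw [mem_filter, mem_W hk] at ha
          obtain ⟨h3, h4⟩ := ha
          push Not at h4
          obtain ⟨i, hi⟩ := h4
          rw [mem_biUnion]
          exact ⟨i, mem_univ i, mem_zbox.mpr ⟨fun j => entry_le hk h3 j, by omega⟩⟩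
      _ ≤ ∑ i : Fin k, (zbox k (rt k Y) i).card := Finset.card_biUnion_le
      _ = k * (rt k Y + 1) ^ (k - 1) := by
          simp [card_zbox]
  have h2' : (((W k Y).filter (fun a => ¬ ∀ i, 1 ≤ a i)).card : ℝ) ≤
      k * ((rt k Y : ℝ) + 1) ^ (k - 1) := by exact_mod_cast h2
  rw [hsplit]
  push_cast
  linarith

/-- Vectors with two equal coordinates. -/
theorem card_noninj_le (k : ℕ) (hk : 1 ≤ k) (X : ℕ) :
    ((W k X).filter (fun a => ¬ Function.Injective a)).card ≤
      k * k * (rt k X + 1) ^ (k - 1) := by
  classical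
  set P : Finset (Fin k × Fin k) := univ.filter (fun p => p.1 ≠ p.2) with hP
  have hsub : (W k X).filter (fun a => ¬ Function.Injective a) ⊆
      P.biUnion (fun p => (W k X).filter (fun a => a p.1 = a p.2)) := by
    intro a ha
    rw [mem_filter] at ha
    obtain ⟨h1, h2⟩ := ha
    rw [Function.not_injective_iff] at h2
    obtain ⟨i, j, hij, hne⟩ := h2
    rw [mem_biUnion]
    refine ⟨(i, j), ?_, ?_⟩
    · rw [hP, mem_filter]; exact ⟨mem_univ _, hne⟩
    · rw [mem_filter]; exact ⟨h1, hij⟩
  have hone : ∀ p ∈ P, ((W k X).filter (fun a => a p.1 = a p.2)).card ≤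
      (rt k X + 1) ^ (k - 1) := by
    intro p hp
    rw [hP, mem_filter] at hp
    have hne : p.1 ≠ p.2 := hp.2
    rw [← card_zbox k (rt k X) p.2]
    apply Finset.card_le_card_of_injOn (fun a => Function.update a p.2 0)
    · intro a ha
      have ha' := mem_filter.mp (Finset.mem_coe.mp ha)
      apply Finset.mem_coe.mpr
      apply mem_zbox.mpr
      refine ⟨fun j => ?_, by simp⟩
      show Function.update a p.2 0 j ≤ rt k X
      by_cases hj : j = p.2
      · rw [hj]; simp
      · rw [Function.update_of_ne hj]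
        exact entry_le hk ((mem_W hk).mp ha'.1) j
    · intro a ha a' ha' h
      have h1 := (mem_filter.mp (Finset.mem_coe.mp ha)).2
      have h2 := (mem_filter.mp (Finset.mem_coe.mp ha')).2
      have h3 : ∀ j, j ≠ p.2 → a j = a' j := by
        intro j hj
        have := congrFun h j
        simpa [Function.update_of_ne hj] using this
      funext j
      by_cases hj : j = p.2
      · rw [hj, ← h1, ← h2]
        exact h3 p.1 hne
      · exact h3 j hj
  calc ((W k X).filter (fun a => ¬ Function.Injective a)).card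
      ≤ (P.biUnion (fun p => (W k X).filter (fun a => a p.1 = a p.2))).card :=
        Finset.card_le_card hsub
    _ ≤ ∑ p ∈ P, ((W k X).filter (fun a => a p.1 = a p.2)).card := Finset.card_biUnion_le
    _ ≤ ∑ _p ∈ P, (rt k X + 1) ^ (k - 1) := Finset.sum_le_sum hone
    _ = P.card * (rt k X + 1) ^ (k - 1) := by simp
    _ ≤ k * k * (rt k X + 1) ^ (k - 1) := by
        apply Nat.mul_le_mul_right
        calc P.card ≤ (Finset.univ : Finset (Fin k × Fin k)).card := Finset.card_le_univ _
          _ = k * k := by simp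

/-- The number of residue vectors modulo `M` whose sum of `k`-th powers is not in `A`. -/
def Q (k M : ℕ) [NeZero M] (A : Finset (ZMod M)) : ℕ :=
  ((Finset.univ : Finset (Fin k → ZMod M)).filter (fun ρ => ∑ i, ρ i ^ k ∉ A)).card

theorem card_res_le (k : ℕ) (hk : 1 ≤ k) (X M : ℕ) [NeZero M] (A : Finset (ZMod M)) :
    ((W k X).filter (fun a => ((∑ i, a i ^ k : ℕ) : ZMod M) ∉ A)).card ≤
      Q k M A * (W k (X / M ^ k)).card := by
  classical
  unfold Q
  rw [← Finset.card_product]
  apply Finset.card_le_card_of_injOn (fun a => ((fun i => ((a i : ℕ) : ZMod M)), fun i => a i / M))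
  · intro a ha
    have ha' := mem_filter.mp (Finset.mem_coe.mp ha)
    apply Finset.mem_coe.mpr
    rw [mem_product, mem_filter]
    refine ⟨⟨mem_univ _, ?_⟩, ?_⟩
    · have := ha'.2
      push_cast at this
      exact this
    · rw [mem_W hk]
      rw [Nat.le_div_iff_mul_le (pow_pos (Nat.pos_of_ne_zero (NeZero.ne M)) k)]
      rw [Finset.sum_mul]
      refine le_trans (Finset.sum_le_sum fun i _ => ?_) ((mem_W hk).mp ha'.1)
      rw [← mul_pow]
      exact Nat.pow_le_pow_left (Nat.div_mul_le_self _ _) k
  · intro a ha a' ha' h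
    have h1 := congrArg Prod.fst h
    have h2 := congrArg Prod.snd h
    funext i
    have h3 : ((a i : ℕ) : ZMod M) = ((a' i : ℕ) : ZMod M) := congrFun h1 i
    have h4 : a i / M = a' i / M := congrFun h2 i
    rw [ZMod.natCast_eq_natCast_iff'] at h3
    rw [← Nat.div_add_mod (a i) M, ← Nat.div_add_mod (a' i) M, h3, h4]

theorem card_class_le (X M : ℕ) [NeZero M] (A : Finset (ZMod M)) :
    ((Icc 1 X).filter (fun n => ((n : ℕ) : ZMod M) ∈ A)).card ≤ A.card * (X / M + 1) := by
  classical
  have : A.card * (X / M + 1) = (A ×ˢ range (X / M + 1)).card := by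
    rw [card_product, card_range]
  rw [this]
  apply Finset.card_le_card_of_injOn (fun n => (((n : ℕ) : ZMod M), n / M))
  · intro n hn
    have hn' := mem_filter.mp (Finset.mem_coe.mp hn)
    apply Finset.mem_coe.mpr
    rw [mem_product, mem_range]
    refine ⟨hn'.2, ?_⟩
    have := Nat.div_le_div_right (c := M) (mem_Icc.mp hn'.1).2
    show n / M < X / M + 1
    omega
  · intro n _ n' _ h
    have h1 : ((n : ℕ) : ZMod M) = ((n' : ℕ) : ZMod M) := congrArg Prod.fst h
    have h2 : n / M = n' / M := congrArg Prod.snd h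
    rw [ZMod.natCast_eq_natCast_iff'] at h1
    rw [← Nat.div_add_mod n M, ← Nat.div_add_mod n' M, h1, h2]

/-- The combinatorial inequality. -/
theorem main_nat (k : ℕ) (hk : 1 ≤ k) (X M : ℕ) [NeZero M] (A : Finset (ZMod M)) :
    k.factorial * (S k X).card ≤
      k.factorial * (A.card * (X / M + 1) + k * k * (rt k X + 1) ^ (k - 1)) +
        Q k M A * (W k (X / M ^ k)).card := by
  classical
  set SA : Finset ℕ := (Icc 1 X).filter (fun n => ((n : ℕ) : ZMod M) ∈ A) with hSA
  set NI : Finset (Fin k → ℕ) := (W k X).filter (fun a => ¬ Function.Injective a) with hNI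
  set f : (Fin k → ℕ) → ℕ := fun a => ∑ i, a i ^ k with hf
  set SI : Finset ℕ := (S k X).filter
    (fun n => ((n : ℕ) : ZMod M) ∉ A ∧ ∃ a : Fin k → ℕ, Function.Injective a ∧ f a = n) with hSI
  set WA : Finset (Fin k → ℕ) := (W k X).filter (fun a => ((∑ i, a i ^ k : ℕ) : ZMod M) ∉ A)
    with hWA
  have hcover : S k X ⊆ (SA ∪ NI.image f) ∪ SI := by
    intro n hn
    have hn' := mem_S.mp hn
    obtain ⟨⟨h1, h2⟩, a, ha⟩ := hn'
    by_cases hA : ((n : ℕ) : ZMod M) ∈ A
    · apply mem_union_left
      apply mem_union_left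
      rw [hSA, mem_filter, mem_Icc]
      exact ⟨⟨h1, h2⟩, hA⟩
    · by_cases hinj : Function.Injective a
      · apply mem_union_right
        rw [hSI, mem_filter]
        exact ⟨hn, hA, a, hinj, ha⟩
      · apply mem_union_left
        apply mem_union_right
        rw [mem_image]
        refine ⟨a, ?_, ha⟩
        rw [hNI, mem_filter, mem_W hk]
        exact ⟨by rw [ha]; exact h2, hinj⟩
  have hfib : ∀ n ∈ SI, k.factorial ≤ (WA.filter (fun a => f a = n)).card := by
    intro n hn
    rw [hSI, mem_filter] at hn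
    obtain ⟨h1, h2, a, hinj, ha⟩ := hn
    have hnX := (mem_S.mp h1).1.2
    calc k.factorial = (Finset.univ : Finset (Equiv.Perm (Fin k))).card := by
          rw [Finset.card_univ, Fintype.card_perm, Fintype.card_fin]
      _ ≤ (WA.filter (fun a => f a = n)).card := by
          apply Finset.card_le_card_of_injOn (fun σ : Equiv.Perm (Fin k) => a ∘ (σ : Fin k → Fin k))
          · intro σ _
            apply Finset.mem_coe.mpr
            have hsum : f (a ∘ σ) = n := by
              rw [← ha, hf]
              exact Equiv.sum_comp σ (fun i => a i ^ k)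
            rw [mem_filter]
            refine ⟨?_, hsum⟩
            rw [hWA, mem_filter, mem_W hk]
            have hsum' : ∑ i, (a ∘ σ) i ^ k = n := hsum
            rw [hsum']
            exact ⟨hnX, h2⟩
          · intro σ _ τ _ h
            apply Equiv.ext
            intro i
            exact hinj (congrFun h i)
  have hSIc : k.factorial * SI.card ≤ WA.card := by
    calc k.factorial * SI.card = ∑ _n ∈ SI, k.factorial := by
          rw [Finset.sum_const, smul_eq_mul, mul_comm]
      _ ≤ ∑ n ∈ SI, (WA.filter (fun a => f a = n)).card := Finset.sum_le_sum hfib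
      _ = (SI.biUnion (fun n => WA.filter (fun a => f a = n))).card := by
          rw [Finset.card_biUnion]
          intro n _ n' _ hne
          rw [Function.onFun, Finset.disjoint_left]
          intro a ha ha'
          rw [mem_filter] at ha ha'
          exact hne (ha.2.symm.trans ha'.2)
      _ ≤ WA.card := by
          apply Finset.card_le_card
          intro a ha
          rw [mem_biUnion] at ha
          obtain ⟨n, _, hn⟩ := ha
          exact (mem_filter.mp hn).1
  have hS : (S k X).card ≤ SA.card + NI.card + SI.card := by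
    calc (S k X).card ≤ ((SA ∪ NI.image f) ∪ SI).card := Finset.card_le_card hcover
      _ ≤ (SA ∪ NI.image f).card + SI.card := Finset.card_union_le _ _
      _ ≤ (SA.card + (NI.image f).card) + SI.card := by
          have := Finset.card_union_le SA (NI.image f)
          omega
      _ ≤ SA.card + NI.card + SI.card := by
          have := Finset.card_image_le (s := NI) (f := f)
          omega
  have h1 : SA.card ≤ A.card * (X / M + 1) := card_class_le X M A
  have h2 : NI.card ≤ k * k * (rt k X + 1) ^ (k - 1) := card_noninj_le k hk X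
  have h3 : WA.card ≤ Q k M A * (W k (X / M ^ k)).card := card_res_le k hk X M A
  calc k.factorial * (S k X).card ≤ k.factorial * (SA.card + NI.card + SI.card) :=
        Nat.mul_le_mul_left _ hS
    _ = k.factorial * (SA.card + NI.card) + k.factorial * SI.card := by ring
    _ ≤ k.factorial * (A.card * (X / M + 1) + k * k * (rt k X + 1) ^ (k - 1)) +
        Q k M A * (W k (X / M ^ k)).card := by
        apply Nat.add_le_add
        · apply Nat.mul_le_mul_left
          omega
        · exact hSIc.trans h3

end Pool.Agent.H59.SP
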