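import Pool.Agent.H59.SPTables

/-!
Assembly: the modulus 6552 for cubes, the modulus 53040 for fourth powers, and the
optimal choice of the set of residues for an arbitrary modulus.
-/

open Finset Filter Topology

namespace Pool.Agent.H59.SP

/-- Chinese remainder for 9, 8, 7, 13. -/
noncomputable def e3 : ZMod (9 * 8 * 7 * 13) ≃+* ((ZMod 9 × ZMod 8) × ZMod 7) × ZMod 13 :=
  (ZMod.chineseRemainder (m := 9 * 8 * 7) (n := 13) (by norm_num)).trans
    (RingEquiv.prodCongr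
      ((ZMod.chineseRemainder (m := 9 * 8) (n := 7) (by norm_num)).trans
        (RingEquiv.prodCongr (ZMod.chineseRemainder (m := 9) (n := 8) (by norm_num))
          (RingEquiv.refl _)))
      (RingEquiv.refl _))

/-- Chinese remainder for 16, 3, 5, 13, 17. -/
noncomputable def e4 : ZMod (16 * 3 * 5 * 13 * 17) ≃+*
    (((ZMod 16 × ZMod 3) × ZMod 5) × ZMod 13) × ZMod 17 :=
  (ZMod.chineseRemainder (m := 16 * 3 * 5 * 13) (n := 17) (by norm_num)).trans
    (RingEquiv.prodCongr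
      ((ZMod.chineseRemainder (m := 16 * 3 * 5) (n := 13) (by norm_num)).trans
        (RingEquiv.prodCongr
          ((ZMod.chineseRemainder (m := 16 * 3) (n := 5) (by norm_num)).trans
            (RingEquiv.prodCongr (ZMod.chineseRemainder (m := 16) (n := 3) (by norm_num))
              (RingEquiv.refl _)))
          (RingEquiv.refl _)))
      (RingEquiv.refl _))

theorem Q_of_PR (k M : ℕ) [NeZero M] (A : Finset (ZMod M)) (P : ℕ)
    (h : PR (ZMod M) k k A = P) : Q k M A + P = M ^ k := by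
  have h2 := PR_compl (R := ZMod M) k k A
  rw [h, ZMod.card] at h2
  exact h2

theorem exists_A3' (M : ℕ) [NeZero M] (e : ZMod M ≃+* ((ZMod 9 × ZMod 8) × ZMod 7) × ZMod 13) :
    ∃ A : Finset (ZMod M), A.card = 24 ∧ Q 3 M A + 513 * 112 * 180 * 1008 = M ^ 3 := by
  refine ⟨(((({0, 1, 8} : Finset (ZMod 9)) ×ˢ ({0} : Finset (ZMod 8))) ×ˢ
    ({1, 6} : Finset (ZMod 7))) ×ˢ ({1, 5, 8, 12} : Finset (ZMod 13))).map
      e.symm.toEquiv.toEmbedding, ?_, ?_⟩
  · rw [Finset.card_map, card_product, card_product, card_product]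
    decide +kernel
  · apply Q_of_PR
    rw [PR_equiv, PR_prod, PR_prod, PR_prod, P3_9, P3_8, P3_7, P3_13]

theorem exists_A4' (M : ℕ) [NeZero M]
    (e : ZMod M ≃+* (((ZMod 16 × ZMod 3) × ZMod 5) × ZMod 13) × ZMod 17) :
    ∃ A : Finset (ZMod M), A.card = 6 ∧ Q 4 M A + 24576 * 33 * 512 * 10032 * 9601 = M ^ 4 := by
  refine ⟨((((({2} : Finset (ZMod 16)) ×ˢ ({0} : Finset (ZMod 3))) ×ˢ
    ({3, 4} : Finset (ZMod 5))) ×ˢ ({1, 3, 9} : Finset (ZMod 13))) ×ˢ
      ({0} : Finset (ZMod 17))).map e.symm.toEquiv.toEmbedding, ?_, ?_⟩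
  · rw [Finset.card_map, card_product, card_product, card_product, card_product]
    decide +kernel
  · apply Q_of_PR
    rw [PR_equiv, PR_prod, PR_prod, PR_prod, PR_prod, P4_16, P4_3, P4_5, P4_13, P4_17]

theorem exists_A3 (M : ℕ) [NeZero M] (hM : M = 9 * 8 * 7 * 13) :
    ∃ A : Finset (ZMod M), A.card = 24 ∧ Q 3 M A + 513 * 112 * 180 * 1008 = M ^ 3 := by
  have e : ZMod M ≃+* ((ZMod 9 × ZMod 8) × ZMod 7) × ZMod 13 :=
    (ZMod.ringEquivCongr hM).trans e3
  exact exists_A3' M e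

theorem exists_A4 (M : ℕ) [NeZero M] (hM : M = 16 * 3 * 5 * 13 * 17) :
    ∃ A : Finset (ZMod M), A.card = 6 ∧ Q 4 M A + 24576 * 33 * 512 * 10032 * 9601 = M ^ 4 := by
  have e : ZMod M ≃+* (((ZMod 16 × ZMod 3) × ZMod 5) × ZMod 13) × ZMod 17 :=
    (ZMod.ringEquivCongr hM).trans e4
  exact exists_A4' M e

/-- The optimal choice of the residues. -/
theorem density_bound_min (k : ℕ) (hk : 2 ≤ k) (M : ℕ) [NeZero M] (ε : ℝ) (hε : 0 < ε) :
    ∀ᶠ X : ℕ in atTop, ((S k X).card : ℝ) ≤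
      (∑ r : ZMod M, min (1 / (M : ℝ)) (Real.Gamma (1 / (k : ℝ) + 1) ^ k / (k.factorial : ℝ) *
        ((cnt (ZMod M) k k r : ℝ) / (M : ℝ) ^ k)) + ε) * X := by
  classical
  set lam : ℝ := Real.Gamma (1 / (k : ℝ) + 1) ^ k / (k.factorial : ℝ) with hlam
  set A : Finset (ZMod M) := univ.filter
    (fun r => 1 / (M : ℝ) ≤ lam * ((cnt (ZMod M) k k r : ℝ) / (M : ℝ) ^ k)) with hA
  have hQ : (Q k M A : ℝ) = ∑ r ∈ univ.filter
      (fun r => ¬ 1 / (M : ℝ) ≤ lam * ((cnt (ZMod M) k k r : ℝ) / (M : ℝ) ^ k)),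
        (cnt (ZMod M) k k r : ℝ) := by
    have h1 : Q k M A = PR (ZMod M) k k (univ.filter
        (fun r => ¬ 1 / (M : ℝ) ≤ lam * ((cnt (ZMod M) k k r : ℝ) / (M : ℝ) ^ k))) := by
      unfold Q PR
      congr 1
      apply Finset.filter_congr
      intro ρ _
      rw [hA, mem_filter, mem_filter]
      simp
    rw [h1, PR_eq_sum]
    push_cast
    rfl
  have hsum : ∑ r : ZMod M, min (1 / (M : ℝ)) (lam * ((cnt (ZMod M) k k r : ℝ) / (M : ℝ) ^ k))
      = (A.card : ℝ) / M + lam * ((Q k M A : ℝ) / (M : ℝ) ^ k) := by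
    rw [← Finset.sum_filter_add_sum_filter_not univ
      (fun r => 1 / (M : ℝ) ≤ lam * ((cnt (ZMod M) k k r : ℝ) / (M : ℝ) ^ k))]
    congr 1
    · rw [Finset.sum_congr rfl (fun r hr => min_eq_left (mem_filter.mp hr).2)]
      rw [Finset.sum_const, nsmul_eq_mul]
      ring
    · rw [Finset.sum_congr rfl (fun r hr => min_eq_right (not_le.mp (mem_filter.mp hr).2).le)]
      rw [hQ, ← Finset.mul_sum, Finset.sum_div]
  have := density_bound k hk M A ε hε
  rw [← hlam] at this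
  rw [hsum]
  exact this

/-- Lower bound for the value of the Gamma function. -/
theorem gamma_lower (x : ℝ) (hx : 0 < x) (n : ℕ) (hn : n ≠ 0) :
    (n : ℝ) ^ x * (n.factorial : ℝ) / ∏ m ∈ range (n + 1), (x + m) ≤ Real.Gamma x := by
  have h := Real.BohrMollerup.ge_logGammaSeq (f := Real.log ∘ Real.Gamma) (x := x) (n := n)
    Real.convexOn_log_Gamma (fun {y} hy => by
      rw [Function.comp_apply, Function.comp_apply, Real.Gamma_add_one hy.ne',
        Real.log_mul hy.ne' (Real.Gamma_pos_of_pos hy).ne', add_comm]) hx hn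
  have hnpos : (0 : ℝ) < n := by exact_mod_cast Nat.pos_of_ne_zero hn
  have hprod : (0 : ℝ) < ∏ m ∈ range (n + 1), (x + m) :=
    Finset.prod_pos (fun m _ => by positivity)
  have hfac : (0 : ℝ) < n.factorial := by exact_mod_cast n.factorial_pos
  have hpos : 0 < (n : ℝ) ^ x * (n.factorial : ℝ) / ∏ m ∈ range (n + 1), (x + m) := by
    have := Real.rpow_pos_of_pos hnpos x
    positivity
  rw [← Real.log_le_log_iff hpos (Real.Gamma_pos_of_pos hx)]
  have hrp := Real.rpow_pos_of_pos hnpos x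
  rw [Real.log_div (by positivity) hprod.ne', Real.log_mul hrp.ne' hfac.ne',
    Real.log_rpow hnpos, Real.log_prod (fun m _ => by positivity)]
  simp only [Function.comp_apply, Real.Gamma_one, Real.log_one, zero_add] at h
  unfold Real.BohrMollerup.logGammaSeq at h
  exact h

/-- The value for cubes. -/
theorem gamma3 : (6 : ℝ) / 273 * ((9 * 8 * 7 * 13) ^ 3 / (513 * 112 * 180 * 1008)) <
    Real.Gamma (4 / 3) ^ 3 := by
  have h1 := gamma_lower (1 / 3) (by norm_num) 4 (by norm_num)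
  have h2 : Real.Gamma (4 / 3) = (1 / 3) * Real.Gamma (1 / 3) := by
    rw [← Real.Gamma_add_one (by norm_num)]
    norm_num
  have h3 : (((4 : ℕ) : ℝ) ^ ((1 : ℝ) / 3)) ^ 3 = 4 := by
    rw [← Real.rpow_natCast, ← Real.rpow_mul (by norm_num)]
    norm_num
  set y : ℝ := ((4 : ℕ) : ℝ) ^ ((1 : ℝ) / 3) with hy
  have hy0 : 0 ≤ y := Real.rpow_nonneg (by norm_num) _
  have h4 : (1 / 3) * (y * (Nat.factorial 4 : ℝ) / ∏ m ∈ range (4 + 1), ((1 : ℝ) / 3 + m)) ≤
      Real.Gamma (4 / 3) := by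
    rw [h2]
    exact mul_le_mul_of_nonneg_left h1 (by norm_num)
  have h5 : ((1 / 3) * (y * (Nat.factorial 4 : ℝ) / ∏ m ∈ range (4 + 1), ((1 : ℝ) / 3 + m))) =
      y * (1944 / 3640) := by
    norm_num [Finset.prod_range_succ, Nat.factorial]
    ring
  rw [h5] at h4
  have h6 : (y * (1944 / 3640)) ^ 3 ≤ Real.Gamma (4 / 3) ^ 3 :=
    pow_le_pow_left₀ (by positivity) h4 3
  rw [mul_pow, h3] at h6
  refine lt_of_lt_of_le ?_ h6
  norm_num

/-- The value for fourth powers. -/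
theorem gamma4 : (24 * 6 : ℝ) / (16 * 3 * 5 * 13 * 17) *
    ((16 * 3 * 5 * 13 * 17) ^ 4 / (24576 * 33 * 512 * 10032 * 9601)) <
    Real.Gamma (5 / 4) ^ 4 := by
  have h1 := gamma_lower (1 / 4) (by norm_num) 4 (by norm_num)
  have h2 : Real.Gamma (5 / 4) = (1 / 4) * Real.Gamma (1 / 4) := by
    rw [← Real.Gamma_add_one (by norm_num)]
    norm_num
  have h3 : (((4 : ℕ) : ℝ) ^ ((1 : ℝ) / 4)) ^ 4 = 4 := by
    rw [← Real.rpow_natCast, ← Real.rpow_mul (by norm_num)]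
    norm_num
  set y : ℝ := ((4 : ℕ) : ℝ) ^ ((1 : ℝ) / 4) with hy
  have hy0 : 0 ≤ y := Real.rpow_nonneg (by norm_num) _
  have h4 : (1 / 4) * (y * (Nat.factorial 4 : ℝ) / ∏ m ∈ range (4 + 1), ((1 : ℝ) / 4 + m)) ≤
      Real.Gamma (5 / 4) := by
    rw [h2]
    exact mul_le_mul_of_nonneg_left h1 (by norm_num)
  have h5 : ((1 / 4) * (y * (Nat.factorial 4 : ℝ) / ∏ m ∈ range (4 + 1), ((1 : ℝ) / 4 + m))) =
      y * (6144 / 9945) := by
    norm_num [Finset.prod_range_succ, Nat.factorial]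
    ring
  rw [h5] at h4
  have h6 : (y * (6144 / 9945)) ^ 4 ≤ Real.Gamma (5 / 4) ^ 4 :=
    pow_le_pow_left₀ (by positivity) h4 4
  rw [mul_pow, h3] at h6
  refine lt_of_lt_of_le ?_ h6
  norm_num

end Pool.Agent.H59.SP
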