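import Pool.Agent.H59.SPCount

/-!
The limiting form of the upper bound.
-/

open Finset Filter Topology

namespace Pool.Agent.H59.SP

theorem rt_tendsto (k : ℕ) (hk : 1 ≤ k) : Tendsto (fun X : ℕ => (rt k X : ℝ)) atTop atTop := by
  apply tendsto_natCast_atTop_atTop.comp
  rw [tendsto_atTop]
  intro m
  filter_upwards [eventually_ge_atTop (m ^ k)] with X hX
  exact le_rt hk hX

theorem err_tendsto (k : ℕ) (hk : 2 ≤ k) :
    Tendsto (fun X : ℕ => ((rt k X : ℝ) + 1) ^ (k - 1) / X) atTop (𝓝 0) := by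
  have hk1 : 1 ≤ k := by omega
  have hlim : Tendsto (fun X : ℕ => (2 : ℝ) ^ (k - 1) / (rt k X : ℝ)) atTop (𝓝 0) :=
    Tendsto.div_atTop tendsto_const_nhds (rt_tendsto k hk1)
  refine squeeze_zero' ?_ ?_ hlim
  · exact Eventually.of_forall (fun X => by positivity)
  · filter_upwards [eventually_ge_atTop 1] with X hX
    have h1 : 1 ≤ rt k X := le_rt hk1 (by simpa using hX)
    have h1' : (1 : ℝ) ≤ rt k X := by exact_mod_cast h1
    have h2 : (rt k X : ℝ) ^ k ≤ X := by exact_mod_cast rt_pow X hk1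
    have hXpos : (0 : ℝ) < X := by exact_mod_cast hX
    have hrpos : (0 : ℝ) < rt k X := by linarith
    rw [div_le_div_iff₀ hXpos hrpos]
    have h3 : ((rt k X : ℝ) + 1) ^ (k - 1) ≤ (2 * (rt k X : ℝ)) ^ (k - 1) := by
      apply pow_le_pow_left₀ (by linarith)
      linarith
    calc ((rt k X : ℝ) + 1) ^ (k - 1) * (rt k X) ≤ (2 * (rt k X : ℝ)) ^ (k - 1) * (rt k X) :=
          mul_le_mul_of_nonneg_right h3 hrpos.le
      _ = 2 ^ (k - 1) * (rt k X : ℝ) ^ k := by
          rw [mul_pow, mul_assoc, ← pow_succ]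
          congr 2
          omega
      _ ≤ 2 ^ (k - 1) * X := mul_le_mul_of_nonneg_left h2 (by positivity)

/-- The density bound for the number of sums of `k` `k`-th powers. -/
theorem density_bound (k : ℕ) (hk : 2 ≤ k) (M : ℕ) [NeZero M] (A : Finset (ZMod M)) (ε : ℝ)
    (hε : 0 < ε) :
    ∀ᶠ X : ℕ in atTop, ((S k X).card : ℝ) ≤
      ((A.card : ℝ) / M + Real.Gamma (1 / (k : ℝ) + 1) ^ k / (k.factorial : ℝ) *
        ((Q k M A : ℝ) / (M : ℝ) ^ k) + ε) * X := by
  have hk1 : 1 ≤ k := by omega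
  set G : ℝ := Real.Gamma (1 / (k : ℝ) + 1) ^ k with hG
  set F : ℝ := (k.factorial : ℝ) with hF
  have hFpos : 0 < F := by rw [hF]; exact_mod_cast k.factorial_pos
  set D : ℝ := (k : ℝ) * k + (Q k M A : ℝ) * k / F with hD
  have hMpos : (0 : ℝ) < M := by exact_mod_cast Nat.pos_of_ne_zero (NeZero.ne M)
  have hG0 : 0 ≤ G := by
    rw [hG]
    exact pow_nonneg (Real.Gamma_pos_of_pos (by positivity)).le _
  have hlim : Tendsto (fun X : ℕ => (A.card : ℝ) / (X : ℝ) +
      D * (((rt k X : ℝ) + 1) ^ (k - 1) / X)) atTop (𝓝 (0 + D * 0)) := by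
    apply Tendsto.add
    · exact tendsto_const_nhds.div_atTop tendsto_natCast_atTop_atTop
    · exact (err_tendsto k hk).const_mul D
  rw [mul_zero, add_zero] at hlim
  filter_upwards [hlim.eventually (gt_mem_nhds hε), eventually_ge_atTop 1] with X hX1 hX2
  have hXpos : (0 : ℝ) < X := by exact_mod_cast hX2
  set E : ℝ := ((rt k X : ℝ) + 1) ^ (k - 1) with hE
  have hmain := main_nat k hk1 X M A
  have hmain' : F * ((S k X).card : ℝ) ≤
      F * ((A.card : ℝ) * (((X / M : ℕ) : ℝ) + 1) + (k : ℝ) * k * E) +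
        (Q k M A : ℝ) * ((W k (X / M ^ k)).card : ℝ) := by
    rw [hF, hE]
    exact_mod_cast hmain
  have hdiv1 : ((X / M : ℕ) : ℝ) ≤ (X : ℝ) / M := Nat.cast_div_le
  have hdiv2 : ((X / M ^ k : ℕ) : ℝ) ≤ (X : ℝ) / (M : ℝ) ^ k := by
    have := Nat.cast_div_le (α := ℝ) (m := X) (n := M ^ k)
    rw [Nat.cast_pow] at this
    exact this
  have hW : ((W k (X / M ^ k)).card : ℝ) ≤ G * ((X : ℝ) / (M : ℝ) ^ k) + k * E := by
    refine (card_W_le k hk1 (X / M ^ k)).trans ?_
    apply add_le_add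
    · exact mul_le_mul_of_nonneg_left hdiv2 hG0
    · apply mul_le_mul_of_nonneg_left _ (Nat.cast_nonneg _)
      rw [hE]
      apply pow_le_pow_left₀ (by positivity)
      have : rt k (X / M ^ k) ≤ rt k X := rt_mono hk1 (Nat.div_le_self _ _)
      have : (rt k (X / M ^ k) : ℝ) ≤ rt k X := by exact_mod_cast this
      linarith
  have hsmall : (A.card : ℝ) + D * E ≤ ε * X := by
    have h := hX1.le
    have h' : ((A.card : ℝ) / (X : ℝ) + D * (E / X)) * X ≤ ε * X :=
      mul_le_mul_of_nonneg_right h hXpos.le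
    calc (A.card : ℝ) + D * E = ((A.card : ℝ) / (X : ℝ) + D * (E / X)) * X := by
          field_simp
      _ ≤ ε * X := h'
  have h5 : F * ((S k X).card : ℝ) ≤
      F * (((A.card : ℝ) / M + G / F * ((Q k M A : ℝ) / (M : ℝ) ^ k) + ε) * X) := by
    calc F * ((S k X).card : ℝ) ≤
        F * ((A.card : ℝ) * (((X / M : ℕ) : ℝ) + 1) + (k : ℝ) * k * E) +
        (Q k M A : ℝ) * ((W k (X / M ^ k)).card : ℝ) := hmain'
      _ ≤ F * ((A.card : ℝ) * ((X : ℝ) / M + 1) + (k : ℝ) * k * E) +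
        (Q k M A : ℝ) * (G * ((X : ℝ) / (M : ℝ) ^ k) + k * E) := by
          apply add_le_add
          · apply mul_le_mul_of_nonneg_left _ hFpos.le
            have : (A.card : ℝ) * (((X / M : ℕ) : ℝ) + 1) ≤ (A.card : ℝ) * ((X : ℝ) / M + 1) :=
              mul_le_mul_of_nonneg_left (by linarith) (Nat.cast_nonneg _)
            linarith
          · exact mul_le_mul_of_nonneg_left hW (Nat.cast_nonneg _)
      _ = F * (((A.card : ℝ) / M + G / F * ((Q k M A : ℝ) / (M : ℝ) ^ k)) * X +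
            ((A.card : ℝ) + D * E)) := by
          rw [hD]
          field_simp
          ring
      _ ≤ F * (((A.card : ℝ) / M + G / F * ((Q k M A : ℝ) / (M : ℝ) ^ k)) * X + ε * X) := by
          apply mul_le_mul_of_nonneg_left _ hFpos.le
          linarith
      _ = _ := by ring
  exact le_of_mul_le_mul_left h5 hFpos

end Pool.Agent.H59.SP
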