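import Pool.Agent.H59.SPLimit

/-!
Local counts: the number of vectors over a finite ring whose sum of `k`-th powers
lies in a given set, products of rings, and tables for small moduli.
-/

open Finset

namespace Pool.Agent.H59.SP

section ring

variable {R R' : Type} [CommRing R] [Fintype R] [DecidableEq R]
  [CommRing R'] [Fintype R'] [DecidableEq R']

/-- Number of vectors of length `s` with sum of `k`-th powers equal to `r`. -/
def cnt (R : Type) [CommRing R] [Fintype R] [DecidableEq R] (k s : ℕ) (r : R) : ℕ :=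
  ((Finset.univ : Finset (Fin s → R)).filter (fun ρ => ∑ i, ρ i ^ k = r)).card

/-- Number of vectors of length `s` with sum of `k`-th powers in `A`. -/
def PR (R : Type) [CommRing R] [Fintype R] [DecidableEq R] (k s : ℕ) (A : Finset R) : ℕ :=
  ((Finset.univ : Finset (Fin s → R)).filter (fun ρ => ∑ i, ρ i ^ k ∈ A)).card

theorem PR_eq_sum (k s : ℕ) (A : Finset R) : PR R k s A = ∑ r ∈ A, cnt R k s r := by
  unfold PR cnt
  rw [← Finset.card_biUnion]
  · congr 1
    ext ρ
    simp
  · intro r _ r' _ hne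
    rw [Function.onFun, Finset.disjoint_left]
    intro ρ h h'
    rw [mem_filter] at h h'
    exact hne (h.2.symm.trans h'.2)

theorem cnt_zero (k : ℕ) (r : R) : cnt R k 0 r = if r = 0 then 1 else 0 := by
  unfold cnt
  rw [Finset.card_filter]
  simp [eq_comm]

theorem cnt_succ (k s : ℕ) (r : R) : cnt R k (s + 1) r = ∑ x : R, cnt R k s (r - x ^ k) := by
  unfold cnt
  rw [Finset.card_filter]
  rw [← Fintype.sum_equiv (Fin.consEquiv (fun _ : Fin (s + 1) => R))
    (fun p => if p.1 ^ k + ∑ i, p.2 i ^ k = r then 1 else 0) _ (fun p => by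
      simp [Fin.consEquiv, Fin.sum_univ_succ])]
  rw [Fintype.sum_prod_type]
  apply Finset.sum_congr rfl
  intro x _
  rw [Finset.card_filter]
  apply Finset.sum_congr rfl
  intro ρ _
  simp only [eq_sub_iff_add_eq']

theorem cnt_step (k s : ℕ) (t t' : R → ℕ) (h : ∀ r, cnt R k s r = t r)
    (h' : ∀ r, ∑ x : R, t (r - x ^ k) = t' r) : ∀ r, cnt R k (s + 1) r = t' r := by
  intro r
  rw [cnt_succ, ← h' r]
  exact Finset.sum_congr rfl (fun x _ => h _)

theorem PR_prod (k s : ℕ) (A : Finset R) (B : Finset R') :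
    PR (R × R') k s (A ×ˢ B) = PR R k s A * PR R' k s B := by
  unfold PR
  rw [← Finset.card_product]
  apply Finset.card_bij (fun ρ _ => (fun i => (ρ i).1, fun i => (ρ i).2))
  · intro ρ hρ
    rw [mem_filter, mem_product, Prod.fst_sum, Prod.snd_sum] at hρ
    rw [mem_product, mem_filter, mem_filter]
    exact ⟨⟨mem_univ _, by simpa using hρ.2.1⟩, ⟨mem_univ _, by simpa using hρ.2.2⟩⟩
  · intro ρ _ ρ' _ h
    funext i
    exact Prod.ext (congrFun (congrArg Prod.fst h) i) (congrFun (congrArg Prod.snd h) i)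
  · rintro ⟨σ, τ⟩ h
    rw [mem_product, mem_filter, mem_filter] at h
    refine ⟨fun i => (σ i, τ i), ?_, rfl⟩
    rw [mem_filter, mem_product, Prod.fst_sum, Prod.snd_sum]
    exact ⟨mem_univ _, by simpa using h.1.2, by simpa using h.2.2⟩

theorem PR_equiv (e : R ≃+* R') (k s : ℕ) (A : Finset R') :
    PR R k s (A.map e.symm.toEquiv.toEmbedding) = PR R' k s A := by
  unfold PR
  apply Finset.card_bij (fun ρ _ => (fun i => e (ρ i)))
  · intro ρ hρ
    rw [mem_filter] at hρ ⊢
    refine ⟨mem_univ _, ?_⟩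
    have h2 := hρ.2
    rw [Finset.mem_map] at h2
    obtain ⟨b, hb, hb'⟩ := h2
    have hb2 : e.symm b = ∑ i, ρ i ^ k := hb'
    have h3 : ∑ i, e (ρ i) ^ k = b := by
      have h4 : e (∑ i, ρ i ^ k) = b := by rw [← hb2]; simp
      rw [← h4]
      simp
    rw [h3]
    exact hb
  · intro ρ _ ρ' _ h
    funext i
    exact e.injective (congrFun h i)
  · intro σ h
    rw [mem_filter] at h
    refine ⟨fun i => e.symm (σ i), ?_, ?_⟩
    · rw [mem_filter, Finset.mem_map]
      refine ⟨mem_univ _, ∑ i, σ i ^ k, h.2, ?_⟩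
      show e.symm (∑ i, σ i ^ k) = ∑ i, e.symm (σ i) ^ k
      simp
    · funext i
      simp

theorem PR_compl (k s : ℕ) (A : Finset R) :
    ((Finset.univ : Finset (Fin s → R)).filter (fun ρ => ∑ i, ρ i ^ k ∉ A)).card + PR R k s A =
      Fintype.card R ^ s := by
  unfold PR
  rw [add_comm, Finset.card_filter_add_card_filter_not]
  simp

end ring

end Pool.Agent.H59.SP
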