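import Pool.Agent.H59.SPLocal

/-!
Tables of the number of representations modulo small numbers.
-/

open Finset

namespace Pool.Agent.H59.SP

/-- A function on residues given by a list of values. -/
def tb (m : ℕ) (l : List ℕ) (r : ZMod m) : ℕ := l.getD r.val 0

theorem P3_9 : PR (ZMod 9) 3 3 {0, 1, 8} = 513 := by
  have h0 : ∀ r : ZMod 9, cnt (ZMod 9) 3 0 r = tb 9 [1, 0, 0, 0, 0, 0, 0, 0, 0] r := by
    intro r
    rw [cnt_zero]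
    revert r
    decide +kernel
  have h1 : ∀ r : ZMod 9, cnt (ZMod 9) 3 1 r = tb 9 [3, 3, 0, 0, 0, 0, 0, 0, 3] r :=
    cnt_step 3 0 _ _ h0 (by decide +kernel)
  have h2 : ∀ r : ZMod 9, cnt (ZMod 9) 3 2 r = tb 9 [27, 18, 9, 0, 0, 0, 0, 9, 18] r :=
    cnt_step 3 1 _ _ h1 (by decide +kernel)
  have h3 : ∀ r : ZMod 9, cnt (ZMod 9) 3 3 r = tb 9 [189, 162, 81, 27, 0, 0, 27, 81, 162] r :=
    cnt_step 3 2 _ _ h2 (by decide +kernel)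
  rw [PR_eq_sum, Finset.sum_congr rfl (fun r _ => h3 r)]
  decide +kernel

theorem P3_8 : PR (ZMod 8) 3 3 {0} = 112 := by
  have h0 : ∀ r : ZMod 8, cnt (ZMod 8) 3 0 r = tb 8 [1, 0, 0, 0, 0, 0, 0, 0] r := by
    intro r
    rw [cnt_zero]
    revert r
    decide +kernel
  have h1 : ∀ r : ZMod 8, cnt (ZMod 8) 3 1 r = tb 8 [4, 1, 0, 1, 0, 1, 0, 1] r :=
    cnt_step 3 0 _ _ h0 (by decide +kernel)
  have h2 : ∀ r : ZMod 8, cnt (ZMod 8) 3 2 r = tb 8 [20, 8, 4, 8, 4, 8, 4, 8] r :=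
    cnt_step 3 1 _ _ h1 (by decide +kernel)
  have h3 : ∀ r : ZMod 8, cnt (ZMod 8) 3 3 r = tb 8 [112, 64, 48, 64, 48, 64, 48, 64] r :=
    cnt_step 3 2 _ _ h2 (by decide +kernel)
  rw [PR_eq_sum, Finset.sum_congr rfl (fun r _ => h3 r)]
  decide +kernel

theorem P3_7 : PR (ZMod 7) 3 3 {1, 6} = 180 := by
  have h0 : ∀ r : ZMod 7, cnt (ZMod 7) 3 0 r = tb 7 [1, 0, 0, 0, 0, 0, 0] r := by
    intro r
    rw [cnt_zero]
    revert r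
    decide +kernel
  have h1 : ∀ r : ZMod 7, cnt (ZMod 7) 3 1 r = tb 7 [1, 3, 0, 0, 0, 0, 3] r :=
    cnt_step 3 0 _ _ h0 (by decide +kernel)
  have h2 : ∀ r : ZMod 7, cnt (ZMod 7) 3 2 r = tb 7 [19, 6, 9, 0, 0, 9, 6] r :=
    cnt_step 3 1 _ _ h1 (by decide +kernel)
  have h3 : ∀ r : ZMod 7, cnt (ZMod 7) 3 3 r = tb 7 [55, 90, 27, 27, 27, 27, 90] r :=
    cnt_step 3 2 _ _ h2 (by decide +kernel)
  rw [PR_eq_sum, Finset.sum_congr rfl (fun r _ => h3 r)]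
  decide +kernel

theorem P3_13 : PR (ZMod 13) 3 3 {1, 5, 8, 12} = 1008 := by
  have h0 : ∀ r : ZMod 13, cnt (ZMod 13) 3 0 r = tb 13 [1, 0, 0, 0, 0, 0, 0, 0, 0, 0, 0, 0, 0] r := by
    intro r
    rw [cnt_zero]
    revert r
    decide +kernel
  have h1 : ∀ r : ZMod 13, cnt (ZMod 13) 3 1 r = tb 13 [1, 3, 0, 0, 0, 3, 0, 0, 3, 0, 0, 0, 3] r :=
    cnt_step 3 0 _ _ h0 (by decide +kernel)
  have h2 : ∀ r : ZMod 13, cnt (ZMod 13) 3 2 r = tb 13 [37, 6, 9, 9, 18, 6, 18, 18, 6, 18, 9, 9, 6] r :=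
    cnt_step 3 1 _ _ h1 (by decide +kernel)
  have h3 : ∀ r : ZMod 13, cnt (ZMod 13) 3 3 r = tb 13 [109, 252, 135, 135, 135, 252, 135, 135, 252, 135, 135, 135, 252] r :=
    cnt_step 3 2 _ _ h2 (by decide +kernel)
  rw [PR_eq_sum, Finset.sum_congr rfl (fun r _ => h3 r)]
  decide +kernel

theorem P4_16 : PR (ZMod 16) 4 4 {2} = 24576 := by
  have h0 : ∀ r : ZMod 16, cnt (ZMod 16) 4 0 r = tb 16 [1, 0, 0, 0, 0, 0, 0, 0, 0, 0, 0, 0, 0, 0, 0, 0] r := by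
    intro r
    rw [cnt_zero]
    revert r
    decide +kernel
  have h1 : ∀ r : ZMod 16, cnt (ZMod 16) 4 1 r = tb 16 [8, 8, 0, 0, 0, 0, 0, 0, 0, 0, 0, 0, 0, 0, 0, 0] r :=
    cnt_step 4 0 _ _ h0 (by decide +kernel)
  have h2 : ∀ r : ZMod 16, cnt (ZMod 16) 4 2 r = tb 16 [64, 128, 64, 0, 0, 0, 0, 0, 0, 0, 0, 0, 0, 0, 0, 0] r :=
    cnt_step 4 1 _ _ h1 (by decide +kernel)
  have h3 : ∀ r : ZMod 16, cnt (ZMod 16) 4 3 r = tb 16 [512, 1536, 1536, 512, 0, 0, 0, 0, 0, 0, 0, 0, 0, 0, 0, 0] r :=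
    cnt_step 4 2 _ _ h2 (by decide +kernel)
  have h4 : ∀ r : ZMod 16, cnt (ZMod 16) 4 4 r = tb 16 [4096, 16384, 24576, 16384, 4096, 0, 0, 0, 0, 0, 0, 0, 0, 0, 0, 0] r :=
    cnt_step 4 3 _ _ h3 (by decide +kernel)
  rw [PR_eq_sum, Finset.sum_congr rfl (fun r _ => h4 r)]
  decide +kernel

theorem P4_3 : PR (ZMod 3) 4 4 {0} = 33 := by
  have h0 : ∀ r : ZMod 3, cnt (ZMod 3) 4 0 r = tb 3 [1, 0, 0] r := by
    intro r
    rw [cnt_zero]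
    revert r
    decide +kernel
  have h1 : ∀ r : ZMod 3, cnt (ZMod 3) 4 1 r = tb 3 [1, 2, 0] r :=
    cnt_step 4 0 _ _ h0 (by decide +kernel)
  have h2 : ∀ r : ZMod 3, cnt (ZMod 3) 4 2 r = tb 3 [1, 4, 4] r :=
    cnt_step 4 1 _ _ h1 (by decide +kernel)
  have h3 : ∀ r : ZMod 3, cnt (ZMod 3) 4 3 r = tb 3 [9, 6, 12] r :=
    cnt_step 4 2 _ _ h2 (by decide +kernel)
  have h4 : ∀ r : ZMod 3, cnt (ZMod 3) 4 4 r = tb 3 [33, 24, 24] r :=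
    cnt_step 4 3 _ _ h3 (by decide +kernel)
  rw [PR_eq_sum, Finset.sum_congr rfl (fun r _ => h4 r)]
  decide +kernel

theorem P4_5 : PR (ZMod 5) 4 4 {3, 4} = 512 := by
  have h0 : ∀ r : ZMod 5, cnt (ZMod 5) 4 0 r = tb 5 [1, 0, 0, 0, 0] r := by
    intro r
    rw [cnt_zero]
    revert r
    decide +kernel
  have h1 : ∀ r : ZMod 5, cnt (ZMod 5) 4 1 r = tb 5 [1, 4, 0, 0, 0] r :=
    cnt_step 4 0 _ _ h0 (by decide +kernel)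
  have h2 : ∀ r : ZMod 5, cnt (ZMod 5) 4 2 r = tb 5 [1, 8, 16, 0, 0] r :=
    cnt_step 4 1 _ _ h1 (by decide +kernel)
  have h3 : ∀ r : ZMod 5, cnt (ZMod 5) 4 3 r = tb 5 [1, 12, 48, 64, 0] r :=
    cnt_step 4 2 _ _ h2 (by decide +kernel)
  have h4 : ∀ r : ZMod 5, cnt (ZMod 5) 4 4 r = tb 5 [1, 16, 96, 256, 256] r :=
    cnt_step 4 3 _ _ h3 (by decide +kernel)
  rw [PR_eq_sum, Finset.sum_congr rfl (fun r _ => h4 r)]
  decide +kernel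

theorem P4_13 : PR (ZMod 13) 4 4 {1, 3, 9} = 10032 := by
  have h0 : ∀ r : ZMod 13, cnt (ZMod 13) 4 0 r = tb 13 [1, 0, 0, 0, 0, 0, 0, 0, 0, 0, 0, 0, 0] r := by
    intro r
    rw [cnt_zero]
    revert r
    decide +kernel
  have h1 : ∀ r : ZMod 13, cnt (ZMod 13) 4 1 r = tb 13 [1, 4, 0, 4, 0, 0, 0, 0, 0, 4, 0, 0, 0] r :=
    cnt_step 4 0 _ _ h0 (by decide +kernel)
  have h2 : ∀ r : ZMod 13, cnt (ZMod 13) 4 2 r = tb 13 [1, 8, 16, 8, 32, 16, 16, 0, 0, 8, 32, 0, 32] r :=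
    cnt_step 4 1 _ _ h1 (by decide +kernel)
  have h3 : ∀ r : ZMod 13, cnt (ZMod 13) 4 3 r = tb 13 [385, 76, 240, 76, 96, 240, 240, 192, 192, 76, 96, 192, 96] r :=
    cnt_step 4 2 _ _ h2 (by decide +kernel)
  have h4 : ∀ r : ZMod 13, cnt (ZMod 13) 4 4 r = tb 13 [1537, 3344, 1888, 3344, 1472, 1888, 1888, 2304, 2304, 3344, 1472, 2304, 1472] r :=
    cnt_step 4 3 _ _ h3 (by decide +kernel)
  rw [PR_eq_sum, Finset.sum_congr rfl (fun r _ => h4 r)]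
  decide +kernel

theorem P4_17 : PR (ZMod 17) 4 4 {0} = 9601 := by
  have h0 : ∀ r : ZMod 17, cnt (ZMod 17) 4 0 r = tb 17 [1, 0, 0, 0, 0, 0, 0, 0, 0, 0, 0, 0, 0, 0, 0, 0, 0] r := by
    intro r
    rw [cnt_zero]
    revert r
    decide +kernel
  have h1 : ∀ r : ZMod 17, cnt (ZMod 17) 4 1 r = tb 17 [1, 4, 0, 0, 4, 0, 0, 0, 0, 0, 0, 0, 0, 4, 0, 0, 4] r :=
    cnt_step 4 0 _ _ h0 (by decide +kernel)
  have h2 : ∀ r : ZMod 17, cnt (ZMod 17) 4 2 r = tb 17 [65, 8, 16, 32, 8, 32, 0, 0, 16, 16, 0, 0, 32, 8, 32, 16, 8] r :=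
    cnt_step 4 1 _ _ h1 (by decide +kernel)
  have h3 : ∀ r : ZMod 17, cnt (ZMod 17) 4 3 r = tb 17 [193, 588, 240, 160, 588, 160, 192, 192, 240, 240, 192, 192, 160, 588, 160, 240, 588] r :=
    cnt_step 4 2 _ _ h2 (by decide +kernel)
  have h4 : ∀ r : ZMod 17, cnt (ZMod 17) 4 4 r = tb 17 [9601, 3600, 4960, 6592, 3600, 6592, 3328, 3328, 4960, 4960, 3328, 3328, 6592, 3600, 6592, 4960, 3600] r :=
    cnt_step 4 3 _ _ h3 (by decide +kernel)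
  rw [PR_eq_sum, Finset.sum_congr rfl (fun r _ => h4 r)]
  decide +kernel

end Pool.Agent.H59.SP
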